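import Pool.Agent.H715.C4.Arith

/-!
# The constant `C₁(d)` in the uniform height bound is at least four, for every degree `d`

For every degree `d ≥ 3` there are integral polynomials `f` of degree `d` without repeated roots
and of arbitrarily large height `M` (largest absolute value of a coefficient), for which
`y ^ 2 = f(x)` has an integral point with `M ^ 4 ≤ c x`, where `c` depends on `d` only.

The polynomials are members `A + t B`, `t = s ^ 2`, of pencils, and `x = t (t - 1) (t - 3) (t - 7)`.
The pencils of degree `d` correspond to the representations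
`d = p (2 p - 1) + q (2 q - 1) + r (2 r - 1)`, `p, q, r ∈ ℤ`, of `d` as a sum of three triangular
numbers. They come from the rational points of the curve `y ^ 2 = x ^ 2 - x φ(λ)` of genus one
over `ℚ(x)`, `φ = λ (λ - 1) (λ - 3) (λ - 7)`, the generic fibre of a rational elliptic surface whose
group of sections has rank three; the reflections of this group are given by explicit relations
(`Pool.Agent.H715.C4.exists_pencil`, `Pool.Agent.H715.C4.exists_factors`).
-/

set_option autoImplicit false

open Polynomial

namespace Pool.Agent.Results.MP_d88658_nt.ConstantAtLeastFour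

open Pool.Agent.H715.C4

/-- **The constant `C₁(d)` is at least four for every degree `d ≥ 3`.**
(1) For every `d ≥ 3` there is a number `c` such that there are polynomials `f ∈ ℤ[X]` of degree
`d` without repeated roots, of arbitrarily large height `M = height f` (the largest absolute value
of a coefficient), for which `y ^ 2 = f(x)` has an integral point with `M ^ 4 ≤ c x`.
(2) Hence, if the uniform height bound of the problem holds for the degree `d` with the constants
`C₁` and `C₂`, then `C₁ ≥ 4`. -/
theorem result (d : ℕ) (hd : 3 ≤ d) :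
    (∃ c : ℕ, ∀ K : ℕ, ∃ f : ℤ[X], f.natDegree = d ∧ (f.map (Int.castRingHom ℚ)).Separable ∧
      K ≤ height f ∧ ∃ x y : ℤ, y ^ 2 = f.eval x ∧ (height f : ℤ) ^ 4 ≤ c * x) ∧
    (∀ C₁ C₂ : ℝ, (∀ f : ℤ[X], f.natDegree = d → (f.map (Int.castRingHom ℚ)).Separable →
      ∀ x y : ℤ, y ^ 2 = f.eval x →
        Real.log (max |(x : ℝ)| 1) ≤ C₁ * Real.log (max (height f : ℝ) 1) + C₂) → 4 ≤ C₁) := by
  have main := family d (by omega)
  refine ⟨main, ?_⟩
  intro C₁ C₂ h
  obtain ⟨c, hc⟩ := main
  by_contra hC
  push Not at hC
  obtain ⟨K, hK⟩ := exists_nat_gt (Real.exp ((C₂ + Real.log (c + 1)) / (4 - C₁)))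
  obtain ⟨f, hfd, hfs, hfK, x, y, hxy, hx⟩ := hc (K + 1)
  have h1 := h f hfd hfs x y hxy
  have hM : (1 : ℝ) ≤ height f := by
    have : 1 ≤ height f := by omega
    exact_mod_cast this
  have hM0 : (0 : ℝ) < height f := by linarith
  have hx' : (height f : ℝ) ^ 4 ≤ (c : ℝ) * x := by exact_mod_cast hx
  have hc0 : (0 : ℝ) ≤ c := Nat.cast_nonneg _
  have hx0 : (0 : ℝ) < x := by
    by_contra hneg
    push Not at hneg
    have h3 : (c : ℝ) * x ≤ 0 := mul_nonpos_of_nonneg_of_nonpos hc0 hneg
    have h4 : (0 : ℝ) < (height f : ℝ) ^ 4 := by positivity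
    linarith
  have hx2 : (height f : ℝ) ^ 4 ≤ ((c : ℝ) + 1) * x := by nlinarith
  have h2 : 4 * Real.log (height f) ≤ Real.log (c + 1) + Real.log x := by
    have h3 := Real.log_le_log (by positivity) hx2
    rw [Real.log_mul (by positivity) hx0.ne', Real.log_pow] at h3
    push_cast at h3
    linarith
  have h4 : Real.log x ≤ Real.log (max |(x : ℝ)| 1) :=
    Real.log_le_log hx0 (le_max_of_le_left (le_abs_self _))
  rw [max_eq_left hM] at h1
  have h5 : (4 - C₁) * Real.log (height f) ≤ C₂ + Real.log (c + 1) := by linarith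
  have h6 : Real.log (height f) ≤ (C₂ + Real.log (c + 1)) / (4 - C₁) := by
    rw [le_div_iff₀ (by linarith)]
    linarith
  have h7 : (height f : ℝ) ≤ Real.exp ((C₂ + Real.log (c + 1)) / (4 - C₁)) :=
    (Real.log_le_iff_le_exp hM0).1 h6
  have h8 : (K : ℝ) + 1 ≤ height f := by exact_mod_cast hfK
  linarith

end Pool.Agent.Results.MP_d88658_nt.ConstantAtLeastFour
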