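import Pool.Agent.H574.HL.Cubic
import Pool.Agent.H574.HL.Quartic

/-!
# The constants `C₁(3)` and `C₁(4)` in the uniform height bound are at least seven and five

1. For positive integers `a`, `b` with `b ^ 2 = 6 a ^ 2 + 1` put `j = a ^ 2`. The cubic
`(2 j - 1) x ^ 3 + 7 x - 20 j` has no repeated root, its largest coefficient is `M = 20 j`, and it
takes a square value at
`x = j (27648 j ^ 6 - 27648 j ^ 5 + 6912 j ^ 4 + 2240 j ^ 3 - 1120 j ^ 2 + 35)`, because
`(2 j - 1) x ^ 3 + 7 x - 20 j = j (6 j + 1) Q(j) ^ 2` with a polynomial `Q`. Here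
`M ^ 7 ≤ 100000 x`.

2. For `s ^ 2 = 2 k ^ 2 + 1` the quartic
`2 x ^ 4 + (336 s + 340) x ^ 3 - (1480 s + 3130) x ^ 2 + (5600 s + 2175) x + 125 (s - 1)`, with
largest coefficient `M = 5600 s + 2175`, takes a square value at
`x = 256 s ^ 5 + 512 s ^ 4 + 16 s ^ 3 - 482 s ^ 2 - 271 s - 31`, because the value is
`2 (s ^ 2 - 1) Z(s) ^ 2` with a polynomial `Z`. Here `M ^ 5 ≤ 7775 ^ 5 x`, and only finitely many
of the quartics have a repeated root.
-/

set_option autoImplicit false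

open Polynomial Pool.Agent.H574.HL

namespace Pool.Agent.Results.MP_d88658_nt.CubicsSevenQuarticsFive

/-- **The constants `C₁(3)` and `C₁(4)` are at least seven and five.**
(1) For all positive integers `a`, `b` with `b ^ 2 = 6 a ^ 2 + 1` the cubic
`(2 a ^ 2 - 1) x ^ 3 + 7 x - 20 a ^ 2` has no repeated root, has the largest coefficient
`M = 20 a ^ 2`, and `y ^ 2 = f(x)` has an integral point with `M ^ 7 ≤ 100000 x`.
(2) There are integral polynomials `f` of degree `4` without repeated roots, of arbitrarily large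
height `M` (the largest absolute value of a coefficient), such that `y ^ 2 = f(x)` has an integral
point with `M ^ 5 ≤ 7775 ^ 5 x`; the same with the degree `3` and `M ^ 7 ≤ 100000 x`.
(3) If the uniform height bound of the problem holds for the degree `3` with the constants `C₁`
and `C₂`, then `C₁ ≥ 7`.
(4) If it holds for the degree `4` with the constants `C₁` and `C₂`, then `C₁ ≥ 5`. -/
theorem result :
    (∀ a b : ℕ, 1 ≤ a → b ^ 2 = 6 * a ^ 2 + 1 →
      ∃ f : ℤ[X], f = C (2 * (a : ℤ) ^ 2 - 1) * X ^ 3 + C 7 * X + C (-20 * (a : ℤ) ^ 2) ∧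
        f.natDegree = 3 ∧ (f.map (Int.castRingHom ℚ)).Separable ∧ height f = 20 * a ^ 2 ∧
        ∃ x y : ℤ, y ^ 2 = f.eval x ∧ (height f : ℤ) ^ 7 ≤ 100000 * x) ∧
    ((∀ N : ℕ, ∃ f : ℤ[X], f.natDegree = 4 ∧ (f.map (Int.castRingHom ℚ)).Separable ∧
      N ≤ height f ∧ ∃ x y : ℤ, y ^ 2 = f.eval x ∧ (height f : ℤ) ^ 5 ≤ 7775 ^ 5 * x) ∧
    (∀ N : ℕ, ∃ f : ℤ[X], f.natDegree = 3 ∧ (f.map (Int.castRingHom ℚ)).Separable ∧
      N ≤ height f ∧ ∃ x y : ℤ, y ^ 2 = f.eval x ∧ (height f : ℤ) ^ 7 ≤ 100000 * x)) ∧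
    (∀ C₁ C₂ : ℝ, (∀ f : ℤ[X], f.natDegree = 3 → (f.map (Int.castRingHom ℚ)).Separable →
      ∀ x y : ℤ, y ^ 2 = f.eval x →
        Real.log (max |(x : ℝ)| 1) ≤ C₁ * Real.log (max (height f : ℝ) 1) + C₂) → 7 ≤ C₁) ∧
    (∀ C₁ C₂ : ℝ, (∀ f : ℤ[X], f.natDegree = 4 → (f.map (Int.castRingHom ℚ)).Separable →
      ∀ x y : ℤ, y ^ 2 = f.eval x →
        Real.log (max |(x : ℝ)| 1) ≤ C₁ * Real.log (max (height f : ℝ) 1) + C₂) → 5 ≤ C₁) := by
  refine ⟨?_, ⟨?_, ?_⟩, ?_, ?_⟩
  · intro a b ha hab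
    have ha2 : 2 ≤ a := by
      by_contra h
      push Not at h
      have h1 : a = 1 := by omega
      rw [h1] at hab
      have h2 : b < 3 := by nlinarith
      interval_cases b <;> omega
    have ha3 : 2 ≤ a ^ 2 := by nlinarith
    have e : (a : ℤ) ^ 2 = ((a ^ 2 : ℕ) : ℤ) := by push_cast; rfl
    refine ⟨cubic ((a : ℤ) ^ 2), rfl, natDegree_cubic', ?_, ?_, cubicX ((a : ℤ) ^ 2),
      a * b * cubicQ ((a : ℤ) ^ 2), point_cubic (by exact_mod_cast hab), ?_⟩
    · rw [e]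
      exact separable_cubic (by omega)
    · rw [e]
      exact height_cubic (by omega)
    · rw [e, height_cubic (by omega)]
      push_cast
      refine large_cubic ?_
      exact_mod_cast ha3
  · intro N
    obtain ⟨g, h1, h2, h3, x, y, h4, h5⟩ := family_quartic N
    exact ⟨g, h1, h2, h3, x, y, h4, by push_cast at h5; exact h5⟩
  · intro N
    obtain ⟨g, h1, h2, h3, x, y, h4, h5⟩ := family_cubic N
    exact ⟨g, h1, h2, h3, x, y, h4, by push_cast at h5; exact h5⟩
  · intro C₁ C₂ h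
    have := le_of_family (by norm_num) family_cubic C₁ C₂ h
    exact_mod_cast this
  · intro C₁ C₂ h
    have := le_of_family (by norm_num) family_quartic C₁ C₂ h
    exact_mod_cast this

end Pool.Agent.Results.MP_d88658_nt.CubicsSevenQuarticsFive
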